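import Pool.Agent.MWHQ.Stmts

/-!
# Block MWHQ, row ED2: the edges of h2
-/

set_option autoImplicit false

namespace Pool.Agent.MWHQ.H36

open Pool.Agent.Helper14_MV Pool.Agent.Helper2_MV Pool.Agent.MVO Pool.Agent.MWL Pool.Agent.MWS
  Pool.Agent.MWH

theorem eg_nil {β : FIC} {k : ℕ} {a b : ℕ → ℕ} {i : ℕ} {s s' : Stt} (h : Tr β k a b i s s') :
    Eg β k a b i s s' := by
  refine ⟨[], fun e he => absurd he (List.not_mem_nil), fun θ hle _ => ⟨fun _ e he => ?_, fun _ => ?_⟩⟩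
  · exact absurd he (List.not_mem_nil)
  · exact hle _ _ h

theorem eg_one {β : FIC} {k : ℕ} {a b : ℕ → ℕ} {i : ℕ} {s s' : Stt}
    (h : JPp β (asm k (W a b i s), asm k (W a b i s'))) : Eg β k a b i s s' := by
  refine ⟨[(asm k (W a b i s), asm k (W a b i s'))], fun e he => ?_, fun θ _ _ => ⟨fun h e he => ?_,
    fun h => ?_⟩⟩
  · rw [List.mem_singleton.1 he]
    exact h
  · rw [List.mem_singleton.1 he]
    exact h
  · exact h _ (List.mem_singleton.2 rfl)

theorem ll2_le {k : ℕ} {a : ℕ → ℕ} {u v : ℕ} (h : LL2 k a u v) {j : ℕ} (hj : j ≤ k) : a j ≤ 1 := by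
  by_cases h1 : j = u
  · rw [h1, h.au]
  · by_cases h2 : j = v
    · rw [h2, h.av]
    · rw [h.az j hj h1 h2]
      omega

theorem ed2 (hLRNN : MWHP.LrnnStmt) (hEDV : MWHP.EdvStmt) (hBB2 : Bb2Stmt) (hLT5 : Lt5Stmt)
    (hHH2 : Hh2Stmt) (hJLA : JlaStmt) (hRDL : RdlStmt) : Ed2Stmt := by
  intro n β hβ
  have hH := hβ.toBaseH
  have hLR : LR n (FC.ofFIC β) := hLRNN n β β hH.toBasN (fun _ _ h => h)
  obtain ⟨hJ, hD⟩ := hBB2 n β hβ
  refine hEDV n β hH ?_
  intro k a b i hV hNa hNb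
  have ha := hLT5 n _ hLR hJ hD k a hNa hV.da
  have hb := hLT5 n _ hLR hJ hD k b hNb hV.db
  refine ⟨fun ha1 hb1 => ?_, fun hb2 => ?_⟩
  · rcases ha with ⟨u, v, hu⟩ | ha
    · rcases hb with ⟨u', v', hu'⟩ | hb
      · exact eg_one (hJLA n β hβ k a b i u v u' v' hV hu hu')
      · have := hb i hV.ik hV.bi
        omega
    · have := ha i hV.ik hV.ai
      omega
  · rcases hb with ⟨u', v', hu'⟩ | hb
    · have := ll2_le hu' hV.ik
      omega
    · by_cases ha2 : 2 ≤ a i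
      · have hT := hHH2 n β hβ k a b i hV ha2 hb2
        have hx : Vs a b i Stt.xy := fun h => absurd h (by decide)
        have hy : Vs a b i Stt.yx := fun h => absurd h (by decide)
        have ho : Vs a b i Stt.ov := fun _ => Or.inl ha2
        exact ⟨eg_nil (hT _ _ hx ho), eg_nil (hT _ _ hy ho)⟩
      · rcases ha with ⟨u, v, hu⟩ | ha
        · exact hRDL n β hβ k a b i u v hV hu hb2 hb
        · exact absurd (ha i hV.ik hV.ai) ha2

end Pool.Agent.MWHQ.H36
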